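import Pool.Agent.W978.QO.Stm

set_option autoImplicit false

/-! Project QO, part L2. -/

namespace Pool.Agent.W696.QO.L2

open Finset Pool.Agent.W978.QN Pool.Agent.W978.QO

lemma map_mp {R S : Type*} [CommRing R] [CommRing S] (φ : R →+* S)
    (b : Fin 3 → Fin 3 → Fin 3 → ℤ) (p : Fin 3 → R) (k j : Fin 3) :
    φ (mp b p k j) = mp b (fun i => φ (p i)) k j := by
  unfold mp
  rw [map_sum]
  refine Finset.sum_congr rfl fun i _ => ?_
  rw [map_mul, map_intCast]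

noncomputable def Dp (b : Fin 3 → Fin 3 → Fin 3 → ℤ) : MvPolynomial (Fin 3) ℤ :=
  (Matrix.of (mp b (fun i => (MvPolynomial.X i : MvPolynomial (Fin 3) ℤ)))).det

lemma map_Dp {S : Type*} [CommRing S] (φ : MvPolynomial (Fin 3) ℤ →+* S)
    (b : Fin 3 → Fin 3 → Fin 3 → ℤ) :
    φ (Dp b) = (Matrix.of (mp b (fun i => φ (MvPolynomial.X i)))).det := by
  unfold Dp
  rw [RingHom.map_det]
  congr 1
  ext k j
  simp only [RingHom.mapMatrix_apply, Matrix.map_apply, Matrix.of_apply]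
  exact map_mp φ b _ k j

lemma Dp_eval (b : Fin 3 → Fin 3 → Fin 3 → ℤ) (p : Fin 3 → ℤ) :
    MvPolynomial.eval p (Dp b) = dm (mp b p) := by
  rw [map_Dp]
  unfold dm
  simp only [MvPolynomial.eval_X]

lemma Dp_ne (b : Fin 3 → Fin 3 → Fin 3 → ℤ)
    (h : ∃ p : Fin 3 → ℂ, (Matrix.of (mp b p)).det ≠ 0) : Dp b ≠ 0 := by
  obtain ⟨p, hp⟩ := h
  intro h0
  apply hp
  have h1 := map_Dp (MvPolynomial.eval₂Hom (Int.castRingHom ℂ) p) b
  rw [h0, map_zero] at h1
  simp only [MvPolynomial.coe_eval₂Hom, MvPolynomial.eval₂_X] at h1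
  exact h1.symm

lemma sum_cubes (n : ℕ) : ∑ l ∈ Icc 2 (n + 1), (1 / (l : ℝ) ^ 3) ≤
    1 / 4 - 1 / (2 * ((n : ℝ) + 1) * (n + 2)) := by
  induction n with
  | zero => simp; norm_num
  | succ n ih =>
    rw [Finset.sum_Icc_succ_top (by omega)]
    have h1 : (1 / (((n + 1 + 1 : ℕ) : ℝ)) ^ 3) ≤
        1 / (((n : ℝ) + 1) * (n + 2) * (n + 3)) := by
      push_cast
      apply one_div_le_one_div_of_le
      · positivity
      · have : (0 : ℝ) ≤ n := Nat.cast_nonneg n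
        nlinarith
    have h2 : 1 / (((n : ℝ) + 1) * (n + 2) * (n + 3)) =
        1 / (2 * ((n : ℝ) + 1) * (n + 2)) - 1 / (2 * ((n : ℝ) + 2) * (n + 3)) := by
      field_simp
      ring
    have h3 : (1 : ℝ) / (2 * (((n + 1 : ℕ) : ℝ) + 1) * (((n + 1 : ℕ) : ℝ) + 2)) =
        1 / (2 * ((n : ℝ) + 2) * (n + 3)) := by
      push_cast
      ring
    rw [h3]
    linarith

lemma sum_cubes' (n : ℕ) : ∑ l ∈ Icc 2 n, (1 / (l : ℝ) ^ 3) ≤ 1 / 4 := by
  rcases n with _ | n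
  · simp
  · refine (sum_cubes n).trans ?_
    have : (0 : ℝ) ≤ 1 / (2 * ((n : ℝ) + 1) * (n + 2)) := by positivity
    linarith

lemma prim_or {p : Fin 3 → ℤ} {X : ℕ} (hp : ∀ i, 1 ≤ p i ∧ p i ≤ X) :
    Prim p ∨ ∃ l ∈ Icc 2 X, ∀ i, (l : ℤ) ∣ p i := by
  set g : ℕ := Int.gcd (Int.gcd (p 0) (p 1) : ℤ) (p 2) with hg
  have hd0 : (g : ℤ) ∣ p 0 := (Int.gcd_dvd_left _ _).trans (Int.gcd_dvd_left _ _)
  have hd1 : (g : ℤ) ∣ p 1 := (Int.gcd_dvd_left _ _).trans (Int.gcd_dvd_right _ _)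
  have hd2 : (g : ℤ) ∣ p 2 := Int.gcd_dvd_right _ _
  have hg0 : g ≠ 0 := by
    intro h0
    rw [h0] at hd0
    have := (hp 0).1
    have h2 : p 0 = 0 := by simpa using hd0
    omega
  by_cases h1 : g = 1
  · left
    refine ⟨![Int.gcdA (p 0) (p 1) * Int.gcdA (Int.gcd (p 0) (p 1) : ℤ) (p 2),
      Int.gcdB (p 0) (p 1) * Int.gcdA (Int.gcd (p 0) (p 1) : ℤ) (p 2),
      Int.gcdB (Int.gcd (p 0) (p 1) : ℤ) (p 2)], ?_⟩
    have e1 := Int.gcd_eq_gcd_ab (p 0) (p 1)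
    have e2 := Int.gcd_eq_gcd_ab (Int.gcd (p 0) (p 1) : ℤ) (p 2)
    rw [← hg, h1] at e2
    rw [Fin.sum_univ_three]
    simp only [Matrix.cons_val_zero, Matrix.cons_val_one, Matrix.cons_val_two, Matrix.head_cons,
      Matrix.tail_cons]
    push_cast at e2
    linear_combination (-Int.gcdA (Int.gcd (p 0) (p 1) : ℤ) (p 2)) * e1 - e2
  · right
    refine ⟨g, ?_, ?_⟩
    · rw [mem_Icc]
      have h3 : (g : ℤ) ≤ p 0 := Int.le_of_dvd (by have := (hp 0).1; omega) hd0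
      have h4 := (hp 0).2
      constructor
      · omega
      · omega
    · intro i
      fin_cases i
      · exact hd0
      · exact hd1
      · exact hd2

lemma card_mult (X l : ℕ) (hl : 1 ≤ l) :
    ((Icc (1 : ℤ) X).filter (fun x => (l : ℤ) ∣ x)).card ≤ X / l := by
  have h1 : (Icc (1 : ℤ) X).filter (fun x => (l : ℤ) ∣ x) ⊆
      (Icc (1 : ℕ) (X / l)).image (fun k : ℕ => (l : ℤ) * k) := by
    intro x hx
    rw [mem_filter, mem_Icc] at hx
    obtain ⟨⟨h2, h3⟩, k, rfl⟩ := hx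
    have hl' : (0 : ℤ) < l := by exact_mod_cast hl
    have hk : 0 < k := by
      by_contra h4
      push Not at h4
      nlinarith
    rw [mem_image]
    refine ⟨k.toNat, ?_, ?_⟩
    · rw [mem_Icc]
      have h5 : ((k.toNat : ℕ) : ℤ) = k := Int.toNat_of_nonneg hk.le
      refine ⟨by omega, ?_⟩
      rw [Nat.le_div_iff_mul_le hl]
      have h6 : ((k.toNat * l : ℕ) : ℤ) ≤ X := by
        push_cast
        rw [h5]
        linarith [mul_comm k (l : ℤ)]
      exact_mod_cast h6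
    · simp [Int.toNat_of_nonneg hk.le]
  refine (card_le_card h1).trans (card_image_le.trans ?_)
  simp

lemma zeros (b : Fin 3 → Fin 3 → Fin 3 → ℤ) (hb : Dp b ≠ 0) (X : ℕ) (hX : 1 ≤ X) :
    ((((Fintype.piFinset fun _ : Fin 3 => Icc (1 : ℤ) X).filter
      (fun p => dm (mp b p) = 0)).card : ℕ) : ℝ) ≤ (Dp b).totalDegree * (X : ℝ) ^ 2 := by
  have h1 := MvPolynomial.schwartz_zippel_totalDegree hb (Icc (1 : ℤ) X)
  simp only [Dp_eval] at h1
  have hc : (Icc (1 : ℤ) X).card = X := by simp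
  rw [hc] at h1
  have hX' : (0 : ℝ) < X := by exact_mod_cast hX
  have hXq : (0 : ℚ≥0) < (X : ℚ≥0) := by exact_mod_cast hX
  rw [div_le_div_iff₀ (by positivity) hXq] at h1
  have h2' : ((Fintype.piFinset fun _ : Fin 3 => Icc (1 : ℤ) X).filter
      (fun p => dm (mp b p) = 0)).card * X ≤ (Dp b).totalDegree * X ^ 3 := by
    exact_mod_cast h1
  have h2 : ((((Fintype.piFinset fun _ : Fin 3 => Icc (1 : ℤ) X).filter
      (fun p => dm (mp b p) = 0)).card : ℕ) : ℝ) * X ≤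
      ((Dp b).totalDegree : ℝ) * (X : ℝ) ^ 3 := by
    exact_mod_cast h2'
  have h3 : ((((Fintype.piFinset fun _ : Fin 3 => Icc (1 : ℤ) X).filter
      (fun p => dm (mp b p) = 0)).card : ℕ) : ℝ) * X ≤
      ((Dp b).totalDegree * (X : ℝ) ^ 2) * X := by
    calc _ ≤ ((Dp b).totalDegree : ℝ) * (X : ℝ) ^ 3 := h2
      _ = _ := by ring
  exact le_of_mul_le_mul_right h3 hX'

theorem main : S_L2 := by
  classical
  intro b hb
  have hD := Dp_ne b hb
  refine ⟨1 / 2, 8 * (Dp b).totalDegree + 1, by norm_num, fun X hX => ?_⟩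
  have hX1 : 1 ≤ X := by omega
  set T := Fintype.piFinset fun _ : Fin 3 => Icc (1 : ℤ) X with hT
  set G := (bx X).filter fun p => Rep p ∧ (X : ℤ) < 2 * nm p ∧ dm (mp b p) ≠ 0 with hG
  set H := Fintype.piFinset fun _ : Fin 3 => Icc (1 : ℤ) ((X / 2 : ℕ) : ℤ) with hH
  set Z := T.filter (fun p => dm (mp b p) = 0) with hZ
  set D : ℕ → Finset (Fin 3 → ℤ) := fun l =>
    Fintype.piFinset fun _ : Fin 3 => (Icc (1 : ℤ) X).filter (fun x => (l : ℤ) ∣ x) with hDl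
  have hcover : T ⊆ ((G ∪ H) ∪ Z) ∪ (Icc 2 X).biUnion D := by
    intro p hp
    have hp' : ∀ i, 1 ≤ p i ∧ p i ≤ X := fun i => mem_Icc.1 (Fintype.mem_piFinset.1 hp i)
    by_cases hz : dm (mp b p) = 0
    · exact mem_union_left _ (mem_union_right _ (mem_filter.2 ⟨hp, hz⟩))
    rcases prim_or hp' with hpr | ⟨l, hl, hd⟩
    swap
    · refine mem_union_right _ (mem_biUnion.2 ⟨l, hl, ?_⟩)
      exact Fintype.mem_piFinset.2 fun i => mem_filter.2 ⟨mem_Icc.2 (hp' i), hd i⟩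
    have hnm : nm p ≤ X := by
      unfold nm
      refine max_le (max_le ?_ ?_) ?_
      · rw [abs_of_nonneg (by have := (hp' 0).1; omega)]; exact (hp' 0).2
      · rw [abs_of_nonneg (by have := (hp' 1).1; omega)]; exact (hp' 1).2
      · rw [abs_of_nonneg (by have := (hp' 2).1; omega)]; exact (hp' 2).2
    by_cases hn : (X : ℤ) < 2 * nm p
    · refine mem_union_left _ (mem_union_left _ (mem_union_left _ ?_))
      refine mem_filter.2 ⟨mem_bx.2 hnm, ⟨hpr, Or.inl ?_⟩, hn, hz⟩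
      have := (hp' 0).1
      omega
    · refine mem_union_left _ (mem_union_left _ (mem_union_right _ ?_))
      refine Fintype.mem_piFinset.2 fun i => mem_Icc.2 ⟨(hp' i).1, ?_⟩
      have h1 : p i ≤ nm p := by
        unfold nm
        have h2 : p i ≤ |p i| := le_abs_self _
        refine h2.trans ?_
        fin_cases i
        · exact (le_max_left _ _).trans (le_max_left _ _)
        · exact (le_max_right _ _).trans (le_max_left _ _)
        · exact le_max_right _ _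
      push Not at hn
      push_cast
      omega
  have hcard : (T.card : ℝ) ≤ (G.card : ℝ) + H.card + Z.card + ∑ l ∈ Icc 2 X, ((D l).card : ℝ) := by
    have h1 := card_le_card hcover
    have h2 := card_union_le ((G ∪ H) ∪ Z) ((Icc 2 X).biUnion D)
    have h3 := card_union_le (G ∪ H) Z
    have h4 := card_union_le G H
    have h5 : ((Icc 2 X).biUnion D).card ≤ ∑ l ∈ Icc 2 X, (D l).card := card_biUnion_le
    have h6 : T.card ≤ G.card + H.card + Z.card + ∑ l ∈ Icc 2 X, (D l).card := by omega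
    exact_mod_cast h6
  have hTc : (T.card : ℝ) = (X : ℝ) ^ 3 := by
    rw [hT, Fintype.card_piFinset]
    simp
  have hHc : (H.card : ℝ) ≤ (X : ℝ) ^ 3 / 8 := by
    have h1 : H.card = (X / 2) ^ 3 := by
      rw [hH, Fintype.card_piFinset, prod_const, card_univ, Fintype.card_fin, Int.card_Icc]
      congr 1
      omega
    rw [h1]
    have h2 : ((X / 2 : ℕ) : ℝ) ≤ (X : ℝ) / 2 := Nat.cast_div_le
    have h3 : (((X / 2 : ℕ) : ℝ)) ^ 3 ≤ ((X : ℝ) / 2) ^ 3 :=
      pow_le_pow_left₀ (Nat.cast_nonneg _) h2 3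
    push_cast
    calc _ ≤ ((X : ℝ) / 2) ^ 3 := h3
      _ = _ := by ring
  have hDc : ∑ l ∈ Icc 2 X, ((D l).card : ℝ) ≤ (X : ℝ) ^ 3 / 4 := by
    have h1 : ∀ l ∈ Icc 2 X, ((D l).card : ℝ) ≤ (X : ℝ) ^ 3 * (1 / (l : ℝ) ^ 3) := by
      intro l hl
      have hl2 : 2 ≤ l := (mem_Icc.1 hl).1
      have h2 : (D l).card ≤ (X / l) ^ 3 := by
        simp only [hDl]
        rw [Fintype.card_piFinset, prod_const, card_univ, Fintype.card_fin]
        exact Nat.pow_le_pow_left (card_mult X l (by omega)) 3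
      have h3 : ((X / l : ℕ) : ℝ) ≤ (X : ℝ) / l := Nat.cast_div_le
      calc ((D l).card : ℝ) ≤ (((X / l) ^ 3 : ℕ) : ℝ) := by exact_mod_cast h2
        _ = ((X / l : ℕ) : ℝ) ^ 3 := by push_cast; rfl
        _ ≤ ((X : ℝ) / l) ^ 3 := pow_le_pow_left₀ (Nat.cast_nonneg _) h3 3
        _ = _ := by ring
    refine (sum_le_sum h1).trans ?_
    rw [← mul_sum]
    have h4 := sum_cubes' X
    have h5 : (0 : ℝ) ≤ (X : ℝ) ^ 3 := by positivity
    nlinarith
  have hZc := zeros b hD X hX1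
  have hN : ((Dp b).totalDegree : ℝ) * (X : ℝ) ^ 2 ≤ (X : ℝ) ^ 3 / 8 := by
    have h1 : 8 * ((Dp b).totalDegree : ℝ) ≤ X := by
      have : 8 * (Dp b).totalDegree ≤ X := by omega
      exact_mod_cast this
    have h2 : (0 : ℝ) ≤ (X : ℝ) ^ 2 := by positivity
    nlinarith
  have hfin : (1 / 2 : ℝ) * (X : ℝ) ^ 3 ≤ (G.card : ℝ) := by
    have h7 : (Z.card : ℝ) ≤ ((Dp b).totalDegree : ℝ) * (X : ℝ) ^ 2 := hZc
    rw [hTc] at hcard
    linarith
  exact hfin

end Pool.Agent.W696.QO.L2
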